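import Pool.Agent.Lib.MP_d71b33_lc_h91.CO

/-!
# Free sites are joined by paths of working nodes (MP_d71b33_lc, task NE)
-/

namespace Pool.Agent.Bfly

open Set

variable {n : ℕ}

theorem wr_empty {p : ℕ} (x v : Rw n) : wr p p x v = x := by
  funext j
  exact wr_out x v j (by omega)

theorem wr_full {p q : ℕ} {x v : Rw n} (h : AgOut p q x v) : wr p q x v = v := by
  funext j
  by_cases hj : j.val < p ∨ q ≤ j.val
  · rw [wr_out x v j hj]
    exact h j hj
  · exact wr_in x v j (by omega) (by omega)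

/-- one step of the path that rewrites the bits `p, …, q - 1` -/
theorem adj_wr_succ {p t : ℕ} (x v : Rw n) (ht : t < n) :
    (butterfly n).Adj (nd (wr p t x v) t) (nd (wr p (t + 1) x v) (t + 1)) := by
  refine Or.inl ⟨?_, ?_⟩
  · rw [nd_snd _ (by omega), nd_snd _ (by omega)]
  · intro j hj
    rw [nd_snd _ (by omega)] at hj
    rw [nd_fst, nd_fst]
    by_cases h1 : j.val < p ∨ t ≤ j.val
    · rw [wr_out _ _ j h1, wr_out _ _ j (by omega)]
    · rw [wr_in _ _ j (by omega) (by omega), wr_in _ _ j (by omega) (by omega)]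

/-- the path from `(x, p)` to `(x', q)` rewriting the bits `p, …, q - 1` one by one -/
theorem near_path {F : Set (Node n)} {x x' : Rw n} {p q : ℕ} (hpq : p ≤ q) (hq : q ≤ n)
    (hF : ∀ t, p ≤ t → t ≤ q → nd (wr p t x x') t ∉ F) (hx : AgOut p q x x') :
    Near (butterfly n) F (q - p) (nd x p) (nd x' q) := by
  have key : ∀ t, p ≤ t → t ≤ q →
      Near (butterfly n) F (t - p) (nd x p) (nd (wr p t x x') t) := by
    intro t ht
    induction t, ht using Nat.le_induction with
    | base =>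
      intro _
      have := hF p le_rfl hpq
      rw [wr_empty] at this ⊢
      exact Near.refl this _
    | succ t ht ih =>
      intro htq
      have h1 := Near.step (ih (by omega)) (hF (t + 1) (by omega) htq)
        (adj_wr_succ x x' (by omega))
      rwa [show t + 1 - p = t - p + 1 by omega]
  have := key q hpq le_rfl
  rwa [wr_full hx] at this

namespace Sys

variable (S : Sys n)

/-- walls of cores are not next to each other (local copy) -/
theorem grid_succ_aux {i j k : ℕ} (hi : S.grid i k) (hj : S.grid j (k + 1)) : False := by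
  unfold Sys.grid at hi hj
  have h4 := S.h0_big
  have h1 : S.h0 ∣ k + S.o := by
    have h := S.h0_dvd_h i
    have h2 : S.h0 ∣ (k + S.o) % (2 * S.h i) := by rw [hi]; exact h
    exact (Nat.dvd_mod_iff (h.mul_left 2)).mp h2
  have h2 : S.h0 ∣ k + 1 + S.o := by
    have h := S.h0_dvd_h j
    have h2 : S.h0 ∣ (k + 1 + S.o) % (2 * S.h j) := by rw [hj]; exact h
    exact (Nat.dvd_mod_iff (h.mul_left 2)).mp h2
  have h3 : S.h0 ∣ 1 := by
    have h5 : S.h0 ∣ (k + 1 + S.o) - (k + S.o) := Nat.dvd_sub h2 h1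
    rwa [show (k + 1 + S.o) - (k + S.o) = 1 by omega] at h5
  have := Nat.le_of_dvd one_pos h3
  omega

theorem exists_core_of_faulty {v : Node n} (hv : v ∈ S.F) {k : ℕ} (hk : k < S.m)
    (h1 : S.lev k ≤ v.2.val) (h2 : v.2.val ≤ S.lev (k + 1)) :
    ∃ Q ∈ S.cores, Q.s ≤ k ∧ k + 1 ≤ Q.e ∧ AgOut (S.lev Q.s) (S.lev Q.e) v.1 Q.b :=
  S.cover v hv k hk h1 h2

theorem not_faulty_of_freeN {v : Node n} (h : S.freeN v) : v ∉ S.F := by
  intro hv
  obtain ⟨k, hk, h1, h2⟩ := S.exists_cell (ℓ := v.2.val) (by have := v.2.isLt; omega)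
  obtain ⟨Q, hQ, h3, h4, h5⟩ := S.cover v hv k hk h1 h2
  have h6 := S.core_le Q hQ
  refine h Q hQ ⟨?_, ?_, h5⟩
  · exact (S.lev_mono h3 (by omega)).trans h1
  · exact h2.trans (S.lev_mono h4 h6)

theorem freeN_nd {x : Rw n} {k : ℕ} (hk : k ≤ S.m) : S.freeN (nd x (S.lev k)) ↔ S.free x k := by
  unfold Sys.freeN Sys.free
  constructor
  · intro h Q hQ hm
    exact h Q hQ ((S.memN_nd hQ hk).mpr hm)
  · intro h Q hQ hm
    exact h Q hQ ((S.memN_nd hQ hk).mp hm)

theorem not_faulty_of_free {x : Rw n} {k : ℕ} (hk : k ≤ S.m) (h : S.free x k) :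
    nd x (S.lev k) ∉ S.F :=
  S.not_faulty_of_freeN ((S.freeN_nd hk).mpr h)

theorem near_cross {x x' : Rw n} {k : ℕ} (hk : k < S.m) (h : S.free x k) (h' : S.free x' (k + 1))
    (hx : AgOut (S.lev k) (S.lev (k + 1)) x x') :
    Near (butterfly n) S.F (2 * S.g) (nd x (S.lev k)) (nd x' (S.lev (k + 1))) := by
  have _ := h'
  have h1 := S.lev_mono (k := k) (l := k + 1) (by omega) hk
  have h2 := S.lev_le_n (k := k + 1) hk
  have h3 := S.lev_hi k hk
  refine Near.mono (r := S.lev (k + 1) - S.lev k) (by omega) ?_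
  refine near_path h1 h2 ?_ hx
  intro t ht1 ht2 hF
  obtain ⟨Q, hQ, h4, h5, h6⟩ := S.cover _ hF k hk (by rw [nd_snd _ (by omega)]; exact ht1)
    (by rw [nd_snd _ (by omega)]; exact ht2)
  rw [nd_fst] at h6
  have h7 := S.core_le Q hQ
  refine h Q hQ ⟨h4, by omega, ?_⟩
  refine AgOut.trans (y := wr (S.lev k) t x x') ?_ h6
  refine AgOut.symm (AgOut.mono (S.lev_mono h4 (by omega)) ?_ (agOut_wr (p := S.lev k) (q := t) x x'))
  exact ht2.trans (S.lev_mono h5 h7)

/-- from a free node just below a wall to the next site -/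
theorem near_in {v : Node n} (hv : S.freeN v) {i β : ℕ} (hβ : β < S.m) (hg : S.grid i β)
    (hl : v.2.val = S.lev β + 1) {x' : Rw n} (hx : AgOut (S.lev β + 1) (S.lev (β + 1)) x' v.1) :
    S.free x' (β + 1) ∧ Near (butterfly n) S.F (2 * S.g) v (nd x' (S.lev (β + 1))) := by
  have h1 := S.lev_lt (k := β) (l := β + 1) (by omega) hβ
  have h2 := S.lev_le_n (k := β + 1) hβ
  have h3 := S.lev_hi β hβ
  -- a core containing the digit `β` whose row agrees with `v` up to the digit `β` contains `v`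
  have key : ∀ Q ∈ S.cores, Q.s ≤ β → β + 1 ≤ Q.e → ∀ y : Rw n,
      AgOut (S.lev β + 1) (S.lev (β + 1)) y v.1 → ¬ AgOut (S.lev Q.s) (S.lev Q.e) y Q.b := by
    intro Q hQ hs he y hy hyQ
    have h7 := S.core_le Q hQ
    have h8 := S.lev_mono hs (by omega)
    have h9 := S.lev_mono he h7
    refine hv Q hQ ⟨by omega, by omega, ?_⟩
    exact AgOut.trans (AgOut.mono (by omega) (by omega) hy.symm) hyQ
  constructor
  · rintro Q hQ ⟨hs, he, hag⟩
    rcases Nat.lt_or_ge β Q.s with h4 | h4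
    · have h5 : Q.s = β + 1 := by omega
      rcases S.core_s Q hQ with h6 | h6
      · omega
      · refine S.grid_succ_aux hg (j := Q.i) ?_
        have h7 := h6.1
        rw [h5] at h7
        exact h7
    · exact key Q hQ h4 he x' hx hag
  · refine Near.mono (r := S.lev (β + 1) - (S.lev β + 1)) (by omega) ?_
    have hvn : nd v.1 (S.lev β + 1) = v := nd_eq rfl hl
    have h4 := near_path (F := S.F) (x := v.1) (x' := x') (p := S.lev β + 1) (q := S.lev (β + 1))
      (by omega) h2 ?_ hx.symm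
    · rwa [hvn] at h4
    · intro t ht1 ht2 hF
      obtain ⟨Q, hQ, h4, h5, h6⟩ := S.cover _ hF β hβ (by rw [nd_snd _ (by omega)]; omega)
        (by rw [nd_snd _ (by omega)]; exact ht2)
      rw [nd_fst] at h6
      refine key Q hQ h4 h5 _ ?_ h6
      exact AgOut.mono le_rfl ht2 (agOut_wr (p := S.lev β + 1) (q := t) v.1 x')

end Sys

end Pool.Agent.Bfly
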